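import Mathlib
import Pool.Agent.Q20.MK.Fin

/-!
# Rational incomplete Mackey functors: the global dimension is monotone and vanishes exactly for
the complete transfer system
-/

set_option linter.unusedVariables false

open CategoryTheory

namespace Pool.Agent.Results.MP_093cae_al.GlobalDimensionMonotone

open Pool.Agent.Q20.MK

/-- For every finite group `G`: the category of rational `O`-Mackey functors is abelian; (i) if
`O ⊆ O'` then `gldim O' ≤ gldim O`; (ii) `gldim O = 0` iff `O` is the complete transfer system. -/
theorem result (G : Type) [Group G] [Finite G] :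
    (∀ O : TransferSystem G, Nonempty (Abelian (RatMackey O))) ∧
    (∀ (O O' : TransferSystem G) [Abelian (RatMackey O)] [Abelian (RatMackey O')],
      (∀ K H : Subgroup G, O.adm K H → O'.adm K H) →
      gldim (RatMackey O') ≤ gldim (RatMackey O)) ∧
    (∀ (O : TransferSystem G) [Abelian (RatMackey O)],
      gldim (RatMackey O) = 0 ↔ ∀ K H : Subgroup G, K ≤ H → O.adm K H) :=
  ⟨mack_abelian, fun O O' i i' h => @final_mono G _ _ O O' i i' h,
    fun O i => @final_zero G _ _ O i⟩

end Pool.Agent.Results.MP_093cae_al.GlobalDimensionMonotone
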